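import Mathlib

/-!
# The quartic of the isogenous curve gives the class `(1, b₁)`: the algebra
-/

set_option autoImplicit false

namespace Pool.Agent.TH231.NO

/-- the integers of a finite set are small after scaling -/
def Scal (K : Type) [Field K] : Prop := ∀ S : Finset ℤ, ∃ u : K, u ≠ 0 ∧
  ∀ a ∈ S, ∃ r : K, r ≠ 0 ∧ r ^ 2 = 1 - u ^ 2 * (a : K)

lemma scal_real : Scal ℝ := by
  intro S
  have hT : (0 : ℝ) ≤ ∑ a ∈ S, |(a : ℝ)| := Finset.sum_nonneg fun a _ => abs_nonneg _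
  set T : ℝ := ∑ a ∈ S, |(a : ℝ)| with hTd
  have hT1 : (1 : ℝ) ≤ 1 + T := by linarith
  refine ⟨1 / (1 + T), by positivity, fun a ha => ?_⟩
  have h1 : (a : ℝ) ≤ T := (le_abs_self _).trans
    (Finset.single_le_sum (f := fun a : ℤ => |(a : ℝ)|) (fun b _ => abs_nonneg _) ha)
  have h3 : 1 + T ≤ (1 + T) ^ 2 := by nlinarith
  have h2 : 0 < 1 - (1 / (1 + T)) ^ 2 * (a : ℝ) := by
    have h4 : (1 / (1 + T)) ^ 2 * (a : ℝ) < 1 := by
      rw [div_pow, one_pow, one_div, inv_mul_lt_iff₀ (by positivity)]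
      linarith
    linarith
  exact ⟨Real.sqrt (1 - (1 / (1 + T)) ^ 2 * (a : ℝ)), (Real.sqrt_pos.2 h2).ne',
    Real.sq_sqrt h2.le⟩

/-! the next two lemmas are those of `Pool.Agent.W402.FK` -/

/-- `1 + 4 p w` is a square -/
lemma hens (p : ℕ) [hp : Fact p.Prime] (w : ℤ_[p]) : IsSquare (1 + 4 * p * w) := by
  let F : Polynomial ℤ_[p] := Polynomial.X ^ 2 - Polynomial.C (1 + 4 * p * w)
  have h1 : F.aeval (1 : ℤ_[p]) = -(4 * p * w) := by
    simp [F]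
  have h2 : F.derivative.aeval (1 : ℤ_[p]) = 2 := by
    simp [F, one_add_one_eq_two]
  have h4 : 0 < ‖(4 : ℤ_[p])‖ := norm_pos_iff.2 (by norm_num)
  obtain ⟨z, hz, -⟩ := hensels_lemma (p := p) (R := ℤ_[p]) (F := F) (a := 1) (by
    rw [h1, h2, norm_neg, norm_mul, norm_mul]
    have h5 : ‖(2 : ℤ_[p])‖ ^ 2 = ‖(4 : ℤ_[p])‖ := by
      rw [← norm_pow]
      norm_num
    rw [h5]
    have h6 : ‖(p : ℤ_[p])‖ < 1 := by
      rw [PadicInt.norm_p]
      exact inv_lt_one_of_one_lt₀ (by exact_mod_cast hp.out.one_lt)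
    have h7 : ‖w‖ ≤ 1 := PadicInt.norm_le_one w
    calc ‖(4 : ℤ_[p])‖ * ‖(p : ℤ_[p])‖ * ‖w‖ ≤ ‖(4 : ℤ_[p])‖ * ‖(p : ℤ_[p])‖ * 1 := by
          gcongr
      _ < ‖(4 : ℤ_[p])‖ * 1 := by
          rw [mul_one]
          exact mul_lt_mul_of_pos_left h6 h4
      _ = ‖(4 : ℤ_[p])‖ := mul_one _)
  refine ⟨z, ?_⟩
  have : F.aeval z = z ^ 2 - (1 + 4 * p * w) := by simp [F]
  rw [this] at hz
  rw [← pow_two]
  exact (sub_eq_zero.1 hz).symm

lemma hens' (p : ℕ) [hp : Fact p.Prime] (e : ℤ) :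
    ∃ r : ℚ_[p], r ≠ 0 ∧ r ^ 2 = 1 / (2 * p) ^ 2 - e := by
  obtain ⟨z, hz⟩ := hens p (-(p * e) : ℤ_[p])
  have hp0 : (p : ℚ_[p]) ≠ 0 := by exact_mod_cast hp.out.ne_zero
  have h1 := congrArg (fun w : ℤ_[p] => (w : ℚ_[p])) hz
  have hc4 : ((4 : ℤ_[p]) : ℚ_[p]) = 4 := rfl
  push_cast at h1
  rw [hc4] at h1
  have h2 : ((z : ℚ_[p]) / (2 * p)) ^ 2 = 1 / (2 * p) ^ 2 - e := by
    rw [div_pow, pow_two (z : ℚ_[p]), ← h1]
    field_simp
    ring
  refine ⟨(z : ℚ_[p]) / (2 * p), ?_, h2⟩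
  intro h0
  rw [h0] at h2
  have h3 : ((1 - 4 * p ^ 2 * e : ℤ) : ℚ_[p]) = 0 := by
    push_cast
    have h4 : (1 : ℚ_[p]) - 4 * p ^ 2 * e = (2 * p) ^ 2 * (1 / (2 * p) ^ 2 - e) := by
      field_simp
      ring
    rw [h4, ← h2]
    simp
  have h5 : (1 - 4 * p ^ 2 * e : ℤ) = 0 := by exact_mod_cast h3
  have h6 : (4 : ℤ) ∣ 1 := ⟨(p : ℤ) ^ 2 * e, by linarith⟩
  norm_num at h6

lemma scal_padic (p : ℕ) [hp : Fact p.Prime] : Scal ℚ_[p] := by
  intro S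
  have hp0 : (p : ℚ_[p]) ≠ 0 := by exact_mod_cast hp.out.ne_zero
  refine ⟨2 * p, mul_ne_zero two_ne_zero hp0, fun a _ => ?_⟩
  obtain ⟨r, hr0, hr⟩ := hens' p a
  refine ⟨2 * p * r, mul_ne_zero (mul_ne_zero two_ne_zero hp0) hr0, ?_⟩
  rw [mul_pow, hr]
  field_simp

/-- the local condition -/
def Lc (K : Type) [Field K] (α β γ : K) : Prop :=
  ∃ x y : K, y ≠ 0 ∧ y ^ 2 = x * (x - α) * (x - β) ∧ IsSquare x ∧ IsSquare ((x - α) * γ)

lemma lc_square {K : Type} [Field K] (H : Scal K) (A B : ℤ) (γ : K) (hγ : IsSquare γ) :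
    Lc K A B γ := by
  obtain ⟨u, hu, hr⟩ := H {A, B}
  obtain ⟨r, hr0, hr1⟩ := hr A (by simp)
  obtain ⟨s, hs0, hs1⟩ := hr B (by simp)
  obtain ⟨g, rfl⟩ := hγ
  have e1 : (1 / u ^ 2 - (A : K)) = (r / u) ^ 2 := by
    rw [div_pow, hr1]
    field_simp
  have e2 : (1 / u ^ 2 - (B : K)) = (s / u) ^ 2 := by
    rw [div_pow, hs1]
    field_simp
  refine ⟨1 / u ^ 2, 1 / u * (r / u) * (s / u), ?_, ?_, ⟨1 / u, by ring⟩, ⟨r / u * g, ?_⟩⟩
  · exact mul_ne_zero (mul_ne_zero (one_div_ne_zero hu) (div_ne_zero hr0 hu)) (div_ne_zero hs0 hu)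
  · rw [e1, e2]
    ring
  · rw [e1]
    ring

lemma core {K : Type} [Field K] [CharZero K] (H : Scal K) (A B : ℤ) (γ δ : K)
    (hA : A ≠ 0) (hB : B ≠ 0) (hAB : A ≠ B) (hγ : γ ≠ 0)
    (hd : γ * δ = ((A : K) - (B : K)) ^ 2)
    (h : ∃ N M e : K, (M ≠ 0 ∨ e ≠ 0) ∧
      N ^ 2 = γ * M ^ 4 + 2 * ((A : K) + (B : K)) * M ^ 2 * e ^ 2 + δ * e ^ 4) :
    Lc K A B γ := by
  obtain ⟨N, M, e, hMe, hN⟩ := h
  have hα : (A : K) ≠ 0 := Int.cast_ne_zero.2 hA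
  have hβ : (B : K) ≠ 0 := Int.cast_ne_zero.2 hB
  have hD : (A : K) - (B : K) ≠ 0 := sub_ne_zero.2 (Int.cast_injective.ne hAB)
  have hδ : δ ≠ 0 := by
    rintro rfl
    rw [mul_zero] at hd
    exact pow_ne_zero 2 hD hd.symm
  by_cases he : e = 0
  · have hM : M ≠ 0 := hMe.resolve_right (not_not.2 he)
    apply lc_square H
    refine ⟨N / M ^ 2, ?_⟩
    rw [he] at hN
    field_simp
    linear_combination -hN
  by_cases hM : M = 0
  · rw [hM] at hN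
    have hN0 : N ≠ 0 := by
      rintro rfl
      have h1 : δ * e ^ 4 = 0 := by linear_combination -hN
      exact (mul_ne_zero hδ (pow_ne_zero 4 he)) h1
    apply lc_square H
    refine ⟨((A : K) - (B : K)) * e ^ 2 / N, ?_⟩
    have h2 : γ * N ^ 2 = (((A : K) - (B : K)) * e ^ 2) ^ 2 := by
      rw [hN]
      linear_combination e ^ 4 * hd
    field_simp
    linear_combination h2
  -- the affine coordinates
  obtain ⟨m, hm⟩ : ∃ m, m = M / e := ⟨_, rfl⟩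
  obtain ⟨n, hn⟩ : ∃ n, n = N / e ^ 2 := ⟨_, rfl⟩
  have hm0 : m ≠ 0 := by rw [hm]; exact div_ne_zero hM he
  have hq : n ^ 2 = γ * m ^ 4 + 2 * ((A : K) + (B : K)) * m ^ 2 + δ := by
    have h1 : M = m * e := by rw [hm]; field_simp
    have h2 : N = n * e ^ 2 := by rw [hn]; field_simp
    rw [h1, h2] at hN
    have h3 : e ^ 4 * (n ^ 2 - (γ * m ^ 4 + 2 * ((A : K) + (B : K)) * m ^ 2 + δ)) = 0 := by
      linear_combination hN
    rcases mul_eq_zero.1 h3 with h4 | h4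
    · exact absurd h4 (pow_ne_zero 4 he)
    · exact sub_eq_zero.1 h4
  clear hN hm hn hMe he hM
  by_cases hn0 : n = 0
  · -- points near `(0, 0)`
    obtain ⟨u, hu, hr⟩ := H {A * B ^ 2, A ^ 2 * B}
    obtain ⟨s, hs0, hs1⟩ := hr (A * B ^ 2) (by simp)
    obtain ⟨t, ht0, ht1⟩ := hr (A ^ 2 * B) (by simp)
    push_cast at hs1 ht1
    rw [hn0] at hq
    obtain ⟨w, hw⟩ : ∃ w : K, 2 * w = γ * m ^ 2 + (A : K) + (B : K) := by
      refine ⟨(γ * m ^ 2 + (A : K) + (B : K)) / 2, ?_⟩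
      field_simp
    have hw2 : w ^ 2 = (A : K) * B := by
      have h1 : 4 * w ^ 2 = 4 * ((A : K) * B) := by
        have h2 : 4 * w ^ 2 = (2 * w) ^ 2 := by ring
        rw [h2, hw]
        linear_combination -γ * hq - hd
      have h4 : (4 : K) ≠ 0 := by norm_num
      exact mul_left_cancel₀ h4 h1
    have hw0 : w ≠ 0 := by
      rintro rfl
      have : (A : K) * B = 0 := by rw [← hw2]; ring
      exact mul_ne_zero hα hβ this
    have hsq : -(A : K) * γ = (((A : K) - w) / m) ^ 2 := by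
      rw [div_pow, eq_div_iff (pow_ne_zero 2 hm0)]
      linear_combination -(A : K) * hw.symm - hw2
    refine ⟨(u * A * B) ^ 2, u * A * B * w * s * t, ?_, ?_, ⟨u * A * B, by ring⟩,
      ⟨((A : K) - w) / m * s, ?_⟩⟩
    · exact mul_ne_zero (mul_ne_zero (mul_ne_zero (mul_ne_zero (mul_ne_zero hu hα) hβ) hw0) hs0) ht0
    · have e0 : (u * A * B * w * s * t) ^ 2 = (u * A * B) ^ 2 * w ^ 2 * s ^ 2 * t ^ 2 := by ring
      rw [e0, hw2, hs1, ht1]
      ring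
    · have e0 : ((A : K) - w) / m * s * (((A : K) - w) / m * s) =
        (((A : K) - w) / m) ^ 2 * s ^ 2 := by ring
      rw [e0, ← hsq, hs1]
      ring
  by_cases h1 : γ * m ^ 2 = (A : K) - B
  · -- points near `(A, 0)`
    obtain ⟨u, hu, hr⟩ := H {-((A - B) * A), -(A ^ 2)}
    obtain ⟨s, hs0, hs1⟩ := hr (-((A - B) * A)) (by simp)
    obtain ⟨t, ht0, ht1⟩ := hr (-(A ^ 2)) (by simp)
    push_cast at hs1 ht1
    have hδ2 : δ = ((A : K) - B) * m ^ 2 := by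
      apply mul_left_cancel₀ hγ
      rw [hd]
      linear_combination -((A : K) - B) * h1
    have hsq : (A : K) = (n / (2 * m)) ^ 2 := by
      rw [div_pow, eq_div_iff (pow_ne_zero 2 (mul_ne_zero two_ne_zero hm0))]
      rw [hδ2] at hq
      linear_combination -hq - m ^ 2 * h1
    refine ⟨(A : K) + ((A : K) - B) * (u * A) ^ 2,
      n / (2 * m) * s * ((A : K) - B) * (u * A) * t, ?_, ?_, ⟨n / (2 * m) * s, ?_⟩,
      ⟨γ * m * (u * A), ?_⟩⟩
    · exact mul_ne_zero (mul_ne_zero (mul_ne_zero (mul_ne_zero (div_ne_zero hn0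
        (mul_ne_zero two_ne_zero hm0)) hs0) hD) (mul_ne_zero hu hα)) ht0
    · have e0 : (n / (2 * m) * s * ((A : K) - B) * (u * A) * t) ^ 2 =
          (n / (2 * m)) ^ 2 * s ^ 2 * ((A : K) - B) ^ 2 * (u * A) ^ 2 * t ^ 2 := by ring
      rw [e0, ← hsq, hs1, ht1]
      ring
    · have e0 : n / (2 * m) * s * (n / (2 * m) * s) = (n / (2 * m)) ^ 2 * s ^ 2 := by ring
      rw [e0, ← hsq, hs1]
      ring
    · linear_combination -γ * (u * A) ^ 2 * h1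
  by_cases h2 : γ * m ^ 2 = (B : K) - A
  · -- points near `(B, 0)`
    obtain ⟨u, hu, hr⟩ := H {(A - B) * B, -(B ^ 2)}
    obtain ⟨s, hs0, hs1⟩ := hr ((A - B) * B) (by simp)
    obtain ⟨t, ht0, ht1⟩ := hr (-(B ^ 2)) (by simp)
    push_cast at hs1 ht1
    have hδ2 : δ = ((B : K) - A) * m ^ 2 := by
      apply mul_left_cancel₀ hγ
      rw [hd]
      linear_combination -((B : K) - A) * h2
    have hsq : (B : K) = (n / (2 * m)) ^ 2 := by
      rw [div_pow, eq_div_iff (pow_ne_zero 2 (mul_ne_zero two_ne_zero hm0))]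
      rw [hδ2] at hq
      linear_combination -hq - m ^ 2 * h2
    refine ⟨(B : K) - ((A : K) - B) * (u * B) ^ 2,
      n / (2 * m) * s * ((A : K) - B) * (u * B) * t, ?_, ?_, ⟨n / (2 * m) * s, ?_⟩,
      ⟨γ * m * t, ?_⟩⟩
    · exact mul_ne_zero (mul_ne_zero (mul_ne_zero (mul_ne_zero (div_ne_zero hn0
        (mul_ne_zero two_ne_zero hm0)) hs0) hD) (mul_ne_zero hu hβ)) ht0
    · have e0 : (n / (2 * m) * s * ((A : K) - B) * (u * B) * t) ^ 2 =
          (n / (2 * m)) ^ 2 * s ^ 2 * ((A : K) - B) ^ 2 * (u * B) ^ 2 * t ^ 2 := by ring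
      rw [e0, ← hsq, hs1, ht1]
      ring
    · have e0 : n / (2 * m) * s * (n / (2 * m) * s) = (n / (2 * m)) ^ 2 * s ^ 2 := by ring
      rw [e0, ← hsq, hs1]
      ring
    · have e0 : γ * m * t * (γ * m * t) = γ * (γ * m ^ 2) * t ^ 2 := by ring
      rw [e0, h2, ht1]
      ring
  -- the generic case
  have hx0 : γ * m ^ 2 ≠ 0 := mul_ne_zero hγ (pow_ne_zero 2 hm0)
  have h40 : (4 : K) ≠ 0 := by norm_num
  have hXA : n ^ 2 / (4 * m ^ 2) - (A : K) =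
      (γ * m ^ 2 - ((A : K) - B)) ^ 2 / (4 * (γ * m ^ 2)) := by
    rw [hq, eq_div_iff (mul_ne_zero h40 hx0)]
    field_simp
    linear_combination hd
  have hXB : n ^ 2 / (4 * m ^ 2) - (B : K) =
      (γ * m ^ 2 + ((A : K) - B)) ^ 2 / (4 * (γ * m ^ 2)) := by
    rw [hq, eq_div_iff (mul_ne_zero h40 hx0)]
    field_simp
    linear_combination hd
  refine ⟨n ^ 2 / (4 * m ^ 2), n / (2 * m) * ((γ * m ^ 2 - ((A : K) - B)) *
    (γ * m ^ 2 + ((A : K) - B)) / (4 * (γ * m ^ 2))), ?_, ?_, ⟨n / (2 * m), ?_⟩,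
    ⟨(γ * m ^ 2 - ((A : K) - B)) / (2 * m), ?_⟩⟩
  · refine mul_ne_zero (div_ne_zero hn0 (mul_ne_zero two_ne_zero hm0)) (div_ne_zero (mul_ne_zero
      (sub_ne_zero.2 h1) ?_) (mul_ne_zero h40 hx0))
    intro h3
    exact h2 (by linear_combination h3)
  · rw [hXA, hXB]
    field_simp
    ring
  · field_simp
    ring
  · rw [hXA]
    field_simp
    ring

end Pool.Agent.TH231.NO
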